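import Mathlib

set_option autoImplicit false

open Set MeasureTheory
open scoped ENNReal

namespace Pool.Agent.MP_bbd370_an

/-- Admissible growth rate, fragmentation rate and fragmentation kernel. -/
structure IsData (r a : ℝ → ℝ) (b : ℝ → ℝ → ℝ) : Prop where
  r_pos : ∀ x, 0 < x → 0 < r x
  r_loc : LocallyIntegrableOn (fun x => 1 / r x) (Ioi 0)
  r_zero : ∫⁻ τ in Ioo (0 : ℝ) 1, ENNReal.ofReal (1 / r τ) = ⊤
  r_top : ∫⁻ τ in Ioi (1 : ℝ), ENNReal.ofReal (1 / r τ) = ⊤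
  a_meas : Measurable a
  a_nonneg : ∀ x, 0 < x → 0 ≤ a x
  b_meas : Measurable (Function.uncurry b)
  b_nonneg : ∀ x y, 0 < x → x < y → 0 ≤ b x y
  b_mass : ∀ y, 0 < y → ∫⁻ x in Ioo 0 y, ENNReal.ofReal (x * b x y) ≤ ENNReal.ofReal y

/-- `U` is the explicit growth-absorption semigroup built from the characteristics `X`. -/
def IsTransport (μ : Measure ℝ) (r a : ℝ → ℝ) (U : ℝ → Lp ℂ 1 μ → ℝ → ℂ) : Prop :=
  ∃ X : ℝ → ℝ → ℝ,
    (∀ y t, 0 < y → 0 ≤ t → X y t ∈ Ioc 0 y ∧ ∫ τ in X y t..y, 1 / r τ = t) ∧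
    ∀ t, 0 ≤ t → ∀ f : Lp ℂ 1 μ, U t f =ᵐ[μ] fun y =>
      (Real.exp (-∫ p in X y t..y, a p / r p) : ℂ) * f (X y t) * (deriv (fun y => X y t) y : ℝ)

/-- Almost everywhere real and nonnegative. -/
def IsNonneg (μ : Measure ℝ) (f : Lp ℂ 1 μ) : Prop := ∀ᵐ x ∂μ, 0 ≤ (f x).re ∧ (f x).im = 0

variable {E : Type} [NormedAddCommGroup E] [NormedSpace ℝ E] [NormedSpace ℂ E]

/-- Strongly continuous semigroup, indexed by nonnegative times. -/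
structure IsC0Semigroup (V : ℝ → E →L[ℂ] E) : Prop where
  zero : V 0 = 1
  add : ∀ s t, 0 ≤ s → 0 ≤ t → V (s + t) = V s * V t
  cont : ∀ f, ContinuousOn (fun t => V t f) (Ici 0)

/-- Graph of the generator: `f` is in the domain and the generator maps it to `g`. -/
def GenGraph (V : ℝ → E →L[ℂ] E) (f g : E) : Prop :=
  HasDerivWithinAt (fun t => V t f) g (Ici 0) 0

/-- Essential spectral radius. -/
noncomputable def essRadius (T : E →L[ℂ] E) : ℝ≥0∞ :=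
  ⨆ z ∈ ⋂ K ∈ {K : E →L[ℂ] E | IsCompactOperator K}, spectrum ℂ (T + K), ‖z‖ₑ

/-- The essential type is strictly smaller than the type. -/
def HasSpectralGap (V : ℝ → E →L[ℂ] E) : Prop :=
  ∃ ω₁ ω₂ : ℝ, ω₁ < ω₂ ∧ (∀ t, 0 < t → essRadius (V t) ≤ ENNReal.ofReal (Real.exp (ω₁ * t))) ∧
    ∀ ω M : ℝ, (∀ t, 0 ≤ t → ‖V t‖ ≤ M * Real.exp (ω * t)) → ω₂ ≤ ω

end Pool.Agent.MP_bbd370_an
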