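import Pool.Agent.MP_bbd370_an.Defs

set_option autoImplicit false

open Set MeasureTheory Filter Topology
open scoped ENNReal NNReal

namespace Pool.Agent.MP_bbd370_an

/-- The measure `x dx` on the positive half line. -/
noncomputable def massMeasure : Measure ℝ :=
  (volume.restrict (Ioi (0 : ℝ))).withDensity fun x => ENNReal.ofReal x

/-- The complex Banach space of integrable functions for the measure `x dx`. -/
abbrev X1 : Type := Lp ℂ 1 massMeasure

/-- ramp function -/
def ramp (z : ℝ) : ℝ := max 0 (min 1 z)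

lemma continuous_ramp : Continuous ramp := by unfold ramp; fun_prop
lemma ramp_nonneg (z : ℝ) : 0 ≤ ramp z := le_max_left _ _
lemma ramp_le_one (z : ℝ) : ramp z ≤ 1 := max_le zero_le_one (min_le_left _ _)
lemma ramp_of_nonpos {z : ℝ} (h : z ≤ 0) : ramp z = 0 := max_eq_left ((min_le_right _ _).trans h)
lemma ramp_of_one_le {z : ℝ} (h : 1 ≤ z) : ramp z = 1 := by
  rw [ramp, min_eq_left h, max_eq_right zero_le_one]

variable (c : ℝ≥0)

/-- speed in logarithmic size -/
def spd (z : ℝ) : ℝ := 1 + c * ramp z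

lemma one_le_spd (z : ℝ) : 1 ≤ spd c z := le_add_of_nonneg_right (mul_nonneg c.2 (ramp_nonneg z))
lemma spd_pos (z : ℝ) : 0 < spd c z := one_pos.trans_le (one_le_spd c z)
lemma spd_le (z : ℝ) : spd c z ≤ 1 + c := by
  have := mul_le_mul_of_nonneg_left (ramp_le_one z) c.2
  unfold spd
  simpa using this
lemma continuous_spd : Continuous (spd c) :=
  continuous_const.add (continuous_const.mul continuous_ramp)

/-- logarithmic size as a function of flow time -/
noncomputable def lsz (z : ℝ) : ℝ := ∫ s in (0 : ℝ)..z, spd c s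

lemma hasDerivAt_lsz (z : ℝ) : HasDerivAt (lsz c) (spd c z) z :=
  ((continuous_spd c).integral_hasStrictDerivAt 0 z).hasDerivAt

lemma continuous_lsz : Continuous (lsz c) :=
  continuous_iff_continuousAt.mpr fun z => (hasDerivAt_lsz c z).continuousAt

lemma lsz_strictMono : StrictMono (lsz c) :=
  strictMono_of_deriv_pos fun z => by rw [(hasDerivAt_lsz c z).deriv]; exact spd_pos c z

lemma lsz_zero : lsz c 0 = 0 := by simp [lsz]

lemma lsz_sub_mono : Monotone fun z => lsz c z - z :=
  monotone_of_deriv_nonneg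
    (fun z => ((hasDerivAt_lsz c z).sub (hasDerivAt_id z)).differentiableAt) fun z => by
      have h : HasDerivAt (fun z => lsz c z - z) (spd c z - 1) z :=
        (hasDerivAt_lsz c z).sub (hasDerivAt_id z)
      rw [h.deriv]; linarith [one_le_spd c z]

lemma lsz_surjective : Function.Surjective (lsz c) := by
  intro s
  have h1 : lsz c (-|s|) - (-|s|) ≤ lsz c 0 - 0 := lsz_sub_mono c (by simp)
  have h2 : lsz c 0 - 0 ≤ lsz c |s| - |s| := lsz_sub_mono c (abs_nonneg s)
  rw [lsz_zero] at h1 h2
  obtain ⟨z, -, h⟩ := intermediate_value_Icc (by simp : -|s| ≤ |s|)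
    (continuous_lsz c).continuousOn
    (show s ∈ Icc _ _ from ⟨by linarith [neg_abs_le s], by linarith [le_abs_self s]⟩)
  exact ⟨z, h⟩

/-- as a homeomorphism -/
noncomputable def lszHomeo : ℝ ≃ₜ ℝ :=
  ((lsz_strictMono c).orderIsoOfSurjective _ (lsz_surjective c)).toHomeomorph

/-- size as a function of flow time -/
noncomputable def xz (z : ℝ) : ℝ := Real.exp (lsz c z)

/-- flow time as a function of size -/
noncomputable def zx (x : ℝ) : ℝ := (lszHomeo c).symm (Real.log x)

lemma xz_pos (z : ℝ) : 0 < xz c z := Real.exp_pos _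

lemma zx_xz (z : ℝ) : zx c (xz c z) = z := by
  rw [zx, xz, Real.log_exp]; exact (lszHomeo c).symm_apply_apply z

lemma lsz_zx (x : ℝ) : lsz c (zx c x) = Real.log x := (lszHomeo c).apply_symm_apply _

lemma xz_zx {x : ℝ} (hx : 0 < x) : xz c (zx c x) = x := by rw [xz, lsz_zx, Real.exp_log hx]

lemma xz_strictMono : StrictMono (xz c) := Real.exp_strictMono.comp (lsz_strictMono c)

lemma xz_zero : xz c 0 = 1 := by rw [xz, lsz_zero, Real.exp_zero]

lemma range_xz : range (xz c) = Ioi 0 :=
  Subset.antisymm (by rintro _ ⟨z, rfl⟩; exact xz_pos c z) fun x hx => ⟨_, xz_zx c hx⟩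

lemma continuous_xz : Continuous (xz c) := Real.continuous_exp.comp (continuous_lsz c)

lemma measurable_zx : Measurable (zx c) :=
  (lszHomeo c).symm.continuous.measurable.comp Real.measurable_log

lemma continuousOn_zx : ContinuousOn (zx c) (Ioi 0) :=
  (lszHomeo c).symm.continuous.comp_continuousOn
    (Real.continuousOn_log.mono fun _ hx => ne_of_gt hx)

lemma zx_nonpos {x : ℝ} (hx : 0 < x) (h : x ≤ 1) : zx c x ≤ 0 := by
  rw [← (xz_strictMono c).le_iff_le, xz_zx c hx, xz_zero]; exact h

lemma zx_nonneg {x : ℝ} (h : 1 ≤ x) : 0 ≤ zx c x := by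
  rw [← (xz_strictMono c).le_iff_le, xz_zx c (one_pos.trans_le h), xz_zero]; exact h

lemma hasDerivAt_xz (z : ℝ) : HasDerivAt (xz c) (xz c z * spd c z) z := (hasDerivAt_lsz c z).exp

/-- growth rate -/
noncomputable def gr (x : ℝ) : ℝ := x * spd c (zx c x)

/-- fragmentation rate -/
noncomputable def fr (x : ℝ) : ℝ := c * ramp (zx c x)

lemma gr_pos {x : ℝ} (hx : 0 < x) : 0 < gr c x := mul_pos hx (spd_pos c _)

lemma continuousOn_gr : ContinuousOn (gr c) (Ioi 0) :=
  continuousOn_id.mul ((continuous_spd c).comp_continuousOn (continuousOn_zx c))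

lemma continuousOn_fr : ContinuousOn (fr c) (Ioi 0) :=
  continuousOn_const.mul (continuous_ramp.comp_continuousOn (continuousOn_zx c))

lemma continuousOn_inv_gr : ContinuousOn (fun x => 1 / gr c x) (Ioi 0) :=
  continuousOn_const.div (continuousOn_gr c) fun _ hx => (gr_pos c hx).ne'

lemma hasDerivAt_zx {x : ℝ} (hx : 0 < x) : HasDerivAt (zx c) (1 / gr c x) x := by
  have h := HasDerivAt.of_local_left_inverse (f := xz c) (g := zx c) (a := x)
    ((continuousOn_zx c).continuousAt (Ioi_mem_nhds hx)) (hasDerivAt_xz c _)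
    (mul_pos (xz_pos c _) (spd_pos c _)).ne'
    (Filter.eventually_of_mem (Ioi_mem_nhds hx) fun y hy => xz_zx c hy)
  rwa [xz_zx c hx, ← one_div] at h

lemma uIcc_subset {x y : ℝ} (hx : 0 < x) (hy : 0 < y) : uIcc x y ⊆ Ioi 0 :=
  fun _ h => (lt_min hx hy).trans_le h.1

lemma integral_inv_gr {x y : ℝ} (hx : 0 < x) (hy : 0 < y) :
    ∫ τ in x..y, 1 / gr c τ = zx c y - zx c x :=
  intervalIntegral.integral_eq_sub_of_hasDerivAt
    (fun _ h => hasDerivAt_zx c (uIcc_subset hx hy h))
    ((continuousOn_inv_gr c).mono (uIcc_subset hx hy)).intervalIntegrable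

lemma integral_fr_gr {x y : ℝ} (hx : 0 < x) (hy : 0 < y) :
    ∫ τ in x..y, fr c τ / gr c τ = (Real.log y - zx c y) - (Real.log x - zx c x) := by
  refine intervalIntegral.integral_eq_sub_of_hasDerivAt (f := fun τ => Real.log τ - zx c τ)
    (fun τ h => ?_) (((continuousOn_fr c).div (continuousOn_gr c)
      fun _ hx => (gr_pos c hx).ne').mono (uIcc_subset hx hy)).intervalIntegrable
  have hτ : 0 < τ := uIcc_subset hx hy h
  refine HasDerivAt.congr_deriv (f := fun τ => Real.log τ - zx c τ)
    ((Real.hasDerivAt_log hτ.ne').sub (hasDerivAt_zx c hτ)) ?_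
  have := spd_pos c (zx c τ)
  have e : fr c τ = spd c (zx c τ) - 1 := by rw [fr, spd]; ring
  rw [e, gr]
  field_simp

lemma lintegral_inv_gr_top {s : Set ℝ} (hs : MeasurableSet s) (hs0 : s ⊆ Ioi 0)
    (h : ¬ IntegrableOn (fun x : ℝ => x⁻¹) s) : ∫⁻ τ in s, ENNReal.ofReal (1 / gr c τ) = ⊤ := by
  by_contra hcon
  apply h
  have hm : AEStronglyMeasurable (fun x => 1 / gr c x) (volume.restrict s) :=
    ((continuousOn_inv_gr c).mono hs0).aestronglyMeasurable hs
  have hi : IntegrableOn (fun x => 1 / gr c x) s :=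
    ⟨hm, (hasFiniteIntegral_iff_ofReal (ae_restrict_of_forall_mem hs fun x hx =>
      (one_div_pos.mpr (gr_pos c (hs0 hx))).le)).mpr (lt_top_iff_ne_top.mpr hcon)⟩
  refine Integrable.mono' (hi.const_mul (1 + c)) measurable_inv.aestronglyMeasurable
    (ae_restrict_of_forall_mem hs fun x hx => ?_)
  have hx0 : 0 < x := hs0 hx
  have h1 := spd_pos c (zx c x)
  have h2 := spd_le c (zx c x)
  rw [Real.norm_of_nonneg (inv_pos.mpr hx0).le, gr, mul_one_div, le_div_iff₀ (mul_pos hx0 h1),
    inv_mul_cancel_left₀ hx0.ne']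
  exact h2

/-- density of the mass measure in flow time -/
noncomputable def den (z : ℝ) : ℝ := xz c z * (xz c z * spd c z)

lemma den_pos (z : ℝ) : 0 < den c z := mul_pos (xz_pos c z) (mul_pos (xz_pos c z) (spd_pos c z))

lemma continuous_den : Continuous (den c) :=
  (continuous_xz c).mul ((continuous_xz c).mul (continuous_spd c))

lemma measurable_denNN : Measurable fun z => (den c z).toNNReal :=
  (continuous_den c).measurable.real_toNNReal

lemma xz_preserving : MeasurePreserving (xz c)
    (volume.withDensity fun z => ((den c z).toNNReal : ℝ≥0∞)) massMeasure := by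
  refine ⟨(continuous_xz c).measurable, ?_⟩
  ext s hs
  have hs' := (continuous_xz c).measurable hs
  rw [Measure.map_apply (continuous_xz c).measurable hs, withDensity_apply _ hs', massMeasure,
    withDensity_apply _ hs, Measure.restrict_restrict hs, ← range_xz c,
    ← image_preimage_eq_inter_range,
    lintegral_image_eq_lintegral_abs_deriv_mul hs'
      (fun z _ => (hasDerivAt_xz c z).hasDerivWithinAt) (xz_strictMono c).injective.injOn]
  congr 1
  ext z
  have h := mul_pos (xz_pos c z) (spd_pos c z)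
  rw [abs_of_pos h, ← ENNReal.ofReal_mul h.le, mul_comm]
  rfl

lemma xz_embedding : MeasurableEmbedding (xz c) :=
  (continuous_xz c).measurableEmbedding (xz_strictMono c).injective

lemma ae_mass_iff (P : ℝ → Prop) : (∀ᵐ x ∂massMeasure, P x) ↔ ∀ᵐ z, P (xz c z) := by
  rw [← (xz_preserving c).map_eq, (xz_embedding c).ae_map_iff,
    ae_withDensity_iff (measurable_denNN c).coe_nnreal_ennreal]
  refine eventually_congr (Eventually.of_forall fun z => ?_)
  have : ((den c z).toNNReal : ℝ≥0∞) ≠ 0 := by simpa using den_pos c z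
  simp [this]

lemma integrable_mass_iff (F : ℝ → ℂ) :
    Integrable F massMeasure ↔ Integrable fun z => den c z • F (xz c z) := by
  rw [← (xz_preserving c).map_eq, (xz_embedding c).integrable_map_iff,
    integrable_withDensity_iff_integrable_smul (measurable_denNN c)]
  simp only [Function.comp_apply, NNReal.smul_def, Real.coe_toNNReal _ (den_pos c _).le]

lemma integral_mass (F : ℝ → ℂ) : ∫ x, F x ∂massMeasure = ∫ z, den c z • F (xz c z) := by
  rw [← (xz_preserving c).map_eq, (xz_embedding c).integral_map,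
    integral_withDensity_eq_integral_smul (measurable_denNN c)]
  simp only [NNReal.smul_def, Real.coe_toNNReal _ (den_pos c _).le]

lemma lintegral_mass {F : ℝ → ℝ≥0∞} (hF : Measurable F) :
    ∫⁻ x, F x ∂massMeasure = ∫⁻ z, ENNReal.ofReal (den c z) * F (xz c z) := by
  rw [← (xz_preserving c).lintegral_comp hF]
  exact lintegral_withDensity_eq_lintegral_mul _
    (measurable_denNN c).coe_nnreal_ennreal (hF.comp (continuous_xz c).measurable)

end Pool.Agent.MP_bbd370_an
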