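import Mathlib

set_option autoImplicit false
set_option linter.unusedSectionVars false

open Set MeasureTheory Filter Topology
open scoped BoundedContinuousFunction

namespace Pool.Agent.MP_bbd370_an

variable {E : Type} [NormedAddCommGroup E] [NormedSpace ℝ E] [NormedSpace ℂ E]
  [IsScalarTower ℝ ℂ E] [CompleteSpace E]

lemma integral_mem_cone {𝒞 : Set E} (hc : Convex ℝ 𝒞) (hcl : IsClosed 𝒞)
    (hsm : ∀ (r : ℝ) x, 0 ≤ r → x ∈ 𝒞 → r • x ∈ 𝒞) (h0 : (0 : E) ∈ 𝒞) {F : ℝ → E}
    (hF : Continuous F) {t : ℝ} (ht : 0 ≤ t) (hm : ∀ σ ∈ Icc 0 t, F σ ∈ 𝒞) :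
    ∫ σ in (0 : ℝ)..t, F σ ∈ 𝒞 := by
  rcases ht.eq_or_lt with rfl | ht'
  · simpa using h0
  have h := hc.set_average_mem (μ := volume) (t := Ioc 0 t) (f := F) hcl (by simpa using ht')
    (by simp) (ae_restrict_of_forall_mem measurableSet_Ioc fun σ hσ => hm σ (Ioc_subset_Icc_self hσ))
    (hF.integrableOn_Icc.mono_set Ioc_subset_Icc_self)
  have h2 := hsm t _ ht h
  rw [setAverage_eq, smul_smul] at h2
  rw [intervalIntegral.integral_of_le ht]
  simpa [ht, ht'.ne'] using h2

lemma integral_mem_hull {K : Set E} {F : ℝ → E}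
    (hF : Continuous F) {t : ℝ} (ht : 0 < t) (hm : ∀ σ ∈ Icc 0 t, F σ ∈ K) :
    ∫ σ in (0 : ℝ)..t, F σ ∈ (fun x => t • x) '' closure (convexHull ℝ K) := by
  have h := (convex_convexHull ℝ K).set_average_mem_closure (μ := volume) (t := Ioc 0 t) (f := F)
    (by simpa using ht) (by simp)
    (ae_restrict_of_forall_mem measurableSet_Ioc fun σ hσ =>
      subset_convexHull ℝ K (hm σ (Ioc_subset_Icc_self hσ)))
    (hF.integrableOn_Icc.mono_set Ioc_subset_Icc_self)
  refine ⟨_, h, ?_⟩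
  rw [setAverage_eq, intervalIntegral.integral_of_le ht.le]
  simp [smul_smul, ht.le, ht.ne']

section
variable {A : ℝ → E →L[ℂ] E} (hA : Continuous fun q : ℝ × E => A q.1 q.2) {C : ℝ} (hC : 0 < C)
  (hb : ∀ t x, ‖A t x‖ ≤ C * ‖x‖)

include hA in
lemma cont_integrand (C : ℝ) (w : ℝ →ᵇ E) :
    Continuous fun σ => Real.cosh (2 * C * σ) • A σ (w σ) :=
  Continuous.smul (by fun_prop)
    (hA.comp (f := fun σ : ℝ => (σ, w σ)) (continuous_id.prodMk w.continuous))

include hC hb in
lemma norm_int_le (w : ℝ →ᵇ E) (t : ℝ) :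
    ‖∫ σ in (0 : ℝ)..t, Real.cosh (2 * C * σ) • A σ (w σ)‖ ≤ Real.cosh (2 * C * t) * (‖w‖ / 2) := by
  have h1 : ∫ σ in (0 : ℝ)..t, Real.cosh (2 * C * σ) * (C * ‖w‖)
      = Real.sinh (2 * C * t) * (‖w‖ / 2) := by
    have : ∀ σ ∈ uIcc 0 t, HasDerivAt (fun σ => Real.sinh (2 * C * σ) * (‖w‖ / 2))
        (Real.cosh (2 * C * σ) * (C * ‖w‖)) σ := by
      intro σ _
      have h := (((hasDerivAt_id σ).const_mul (2 * C)).sinh).mul_const (‖w‖ / 2)
      refine HasDerivAt.congr_deriv (f := fun σ => Real.sinh (2 * C * σ) * (‖w‖ / 2)) h ?_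
      simp only [id]; ring
    rw [intervalIntegral.integral_eq_sub_of_hasDerivAt this
      (Continuous.intervalIntegrable (by fun_prop) _ _)]
    simp
  refine (intervalIntegral.norm_integral_le_abs_of_norm_le
    (g := fun σ => Real.cosh (2 * C * σ) * (C * ‖w‖)) (Eventually.of_forall fun σ => ?_)
    (Continuous.intervalIntegrable (by fun_prop) _ _)).trans ?_
  · rw [norm_smul, Real.norm_of_nonneg (Real.cosh_pos _).le]
    refine mul_le_mul_of_nonneg_left ((hb _ _).trans ?_) (Real.cosh_pos _).le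
    exact mul_le_mul_of_nonneg_left (w.norm_coe_le_norm σ) hC.le
  · rw [h1, abs_mul, abs_of_nonneg (by positivity : 0 ≤ ‖w‖ / 2), Real.abs_sinh, ← Real.cosh_abs]
    exact mul_le_mul_of_nonneg_right (Real.sinh_lt_cosh _).le (by positivity)

include hC hb in
lemma norm_pic_le (f : E) (w : ℝ →ᵇ E) (t : ℝ) :
    ‖(Real.cosh (2 * C * t))⁻¹ • (f + ∫ σ in (0 : ℝ)..t, Real.cosh (2 * C * σ) • A σ (w σ))‖
      ≤ ‖f‖ + ‖w‖ / 2 := by
  have h1 := norm_int_le hC hb w t
  have h2 := Real.one_le_cosh (2 * C * t)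
  rw [norm_smul, norm_inv, Real.norm_of_nonneg (Real.cosh_pos _).le,
    inv_mul_le_iff₀ (Real.cosh_pos _)]
  refine (norm_add_le _ _).trans ?_
  nlinarith [norm_nonneg f]

/-- Picard operator in a weighted space -/
noncomputable def pic (f : E) (w : ℝ →ᵇ E) : ℝ →ᵇ E :=
  BoundedContinuousFunction.ofNormedAddCommGroup
    (fun t => (Real.cosh (2 * C * t))⁻¹ •
      (f + ∫ σ in (0 : ℝ)..t, Real.cosh (2 * C * σ) • A σ (w σ)))
    (Continuous.smul (Continuous.inv₀ (by fun_prop) fun _ => (Real.cosh_pos _).ne')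
      (continuous_const.add (intervalIntegral.continuous_primitive
        (fun _ _ => (cont_integrand hA C w).intervalIntegrable _ _) 0)))
    (‖f‖ + ‖w‖ / 2) (norm_pic_le hC hb f w)

lemma pic_apply (f : E) (w : ℝ →ᵇ E) (t : ℝ) : pic hA hC hb f w t = (Real.cosh (2 * C * t))⁻¹ •
      (f + ∫ σ in (0 : ℝ)..t, Real.cosh (2 * C * σ) • A σ (w σ)) := rfl

lemma pic_contracting (f : E) : ContractingWith (1 / 2) (pic hA hC hb f) := by
  refine ⟨by norm_num, LipschitzWith.of_dist_le_mul fun w v => ?_⟩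
  rw [BoundedContinuousFunction.dist_le (by positivity)]
  intro t
  have h := norm_pic_le hC hb 0 (w - v) t
  rw [dist_eq_norm, dist_eq_norm, pic_apply, pic_apply, ← smul_sub, add_sub_add_left_eq_sub,
    ← intervalIntegral.integral_sub ((cont_integrand hA C w).intervalIntegrable _ _)
      ((cont_integrand hA C v).intervalIntegrable _ _)]
  simp only [zero_add, BoundedContinuousFunction.coe_sub, Pi.sub_apply, map_sub, smul_sub,
    norm_zero] at h
  refine h.trans (le_of_eq ?_)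
  push_cast; ring

/-- the fixed point -/
noncomputable def fixp (f : E) : ℝ →ᵇ E :=
  ContractingWith.fixedPoint (pic hA hC hb f) (pic_contracting hA hC hb f)

lemma fixp_eq (f : E) : pic hA hC hb f (fixp hA hC hb f) = fixp hA hC hb f :=
  (pic_contracting hA hC hb f).fixedPoint_isFixedPt

/-- solution of the linear equation -/
noncomputable def sol (f : E) (t : ℝ) : E :=
  Real.cosh (2 * C * t) • fixp hA hC hb f t

lemma continuous_sol (f : E) : Continuous (sol hA hC hb f) :=
  Continuous.smul (f := fun t => Real.cosh (2 * C * t)) (by fun_prop)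
    (fixp hA hC hb f).continuous

lemma sol_eq (f : E) (t : ℝ) :
    sol hA hC hb f t = f + ∫ σ in (0 : ℝ)..t, A σ (sol hA hC hb f σ) := by
  conv_lhs => rw [sol, ← fixp_eq, pic_apply, smul_smul, mul_inv_cancel₀ (Real.cosh_pos _).ne', one_smul]
  simp only [sol, ContinuousLinearMap.map_smul_of_tower]

lemma sol_zero (f : E) : sol hA hC hb f 0 = f := by rw [sol_eq]; simp

lemma cont_A_sol (f : E) : Continuous fun σ => A σ (sol hA hC hb f σ) :=
  hA.comp (f := fun σ : ℝ => (σ, sol hA hC hb f σ))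
    (continuous_id.prodMk (continuous_sol hA hC hb f))

lemma hasDerivAt_sol (f : E) (t : ℝ) :
    HasDerivAt (sol hA hC hb f) (A t (sol hA hC hb f t)) t := by
  have h := ((cont_A_sol hA hC hb f).integral_hasStrictDerivAt 0 t).hasDerivAt.const_add f
  exact h.congr_of_eventuallyEq (Eventually.of_forall fun u => sol_eq hA hC hb f u)

lemma norm_sol_le (f : E) (t : ℝ) : ‖sol hA hC hb f t‖ ≤ 2 * Real.cosh (2 * C * t) * ‖f‖ := by
  have h := fixp_eq hA hC hb f
  set w := fixp hA hC hb f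
  have h1 : ‖w‖ ≤ ‖f‖ + ‖w‖ / 2 := by
    conv_lhs => rw [← h]
    exact (BoundedContinuousFunction.norm_le (by positivity)).mpr (norm_pic_le hC hb f w)
  have h2 := w.norm_coe_le_norm t
  rw [sol, norm_smul, Real.norm_of_nonneg (Real.cosh_pos _).le]
  have := Real.cosh_pos (2 * C * t)
  nlinarith

include hC hb in
omit [CompleteSpace E] in
lemma ode_unique {y z : ℝ → E} (hy : ∀ t, HasDerivAt y (A t (y t)) t)
    (hz : ∀ t, HasDerivAt z (A t (z t)) t) (h0 : y 0 = z 0) : y = z := by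
  refine ODE_solution_unique_univ (v := fun t x => A t x) (s := fun _ => univ) (K := ⟨C, hC.le⟩)
    (t₀ := 0) (fun t => ?_) (fun t => ⟨hy t, trivial⟩) (fun t => ⟨hz t, trivial⟩) h0
  refine (LipschitzWith.of_dist_le_mul fun x y => ?_).lipschitzOnWith
  rw [dist_eq_norm, dist_eq_norm, ← map_sub]
  exact hb _ _

lemma sol_unique {f : E} {y : ℝ → E} (hy : ∀ t, HasDerivAt y (A t (y t)) t) (h0 : y 0 = f) :
    y = sol hA hC hb f :=
  ode_unique hC hb hy (hasDerivAt_sol hA hC hb f) (h0.trans (sol_zero hA hC hb f).symm)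

/-- the propagator -/
noncomputable def prop (t : ℝ) : E →L[ℂ] E :=
  LinearMap.mkContinuous
    { toFun := fun f => sol hA hC hb f t
      map_add' := fun f g => by
        have := sol_unique hA hC hb (f := f + g) (y := fun t => sol hA hC hb f t + sol hA hC hb g t)
          (fun t => by
            rw [map_add]; exact (hasDerivAt_sol hA hC hb f t).add (hasDerivAt_sol hA hC hb g t))
          (by simp only [sol_zero])
        rw [← this]
      map_smul' := fun c f => by
        have := sol_unique hA hC hb (f := c • f) (y := fun t => c • sol hA hC hb f t)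
          (fun t => by rw [map_smul]; exact (hasDerivAt_sol hA hC hb f t).const_smul c)
          (by simp only [sol_zero])
        rw [← this]; rfl }
    (2 * Real.cosh (2 * C * t)) (fun f => norm_sol_le hA hC hb f t)

lemma prop_apply (t : ℝ) (f : E) : prop hA hC hb t f = sol hA hC hb f t := rfl

lemma sol_mem {𝒞 : Set E} (hc : Convex ℝ 𝒞) (hcl : IsClosed 𝒞)
    (hsm : ∀ (r : ℝ) x, 0 ≤ r → x ∈ 𝒞 → r • x ∈ 𝒞) (hAc : ∀ t x, x ∈ 𝒞 → A t x ∈ 𝒞)
    {f : E} (hf : f ∈ 𝒞) {t : ℝ} (ht : 0 ≤ t) : sol hA hC hb f t ∈ 𝒞 := by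
  have h0 : (0 : E) ∈ 𝒞 := by simpa using hsm 0 f le_rfl hf
  have hadd : ∀ x y, x ∈ 𝒞 → y ∈ 𝒞 → x + y ∈ 𝒞 := by
    intro x y hx hy
    have := hsm 2 _ (by norm_num) (hc hx hy (a := 1 / 2) (b := 1 / 2) (by norm_num) (by norm_num)
      (by norm_num))
    simpa [smul_add, smul_smul] using this
  have hit : ∀ n : ℕ, ∀ t, 0 ≤ t → ((pic hA hC hb f)^[n] 0) t ∈ 𝒞 := by
    intro n
    induction n with
    | zero => intro t _; simpa using h0
    | succ n ih =>
      intro t ht
      rw [Function.iterate_succ_apply', pic_apply]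
      refine hsm _ _ (inv_pos.mpr (Real.cosh_pos _)).le (hadd _ _ hf ?_)
      exact integral_mem_cone hc hcl hsm h0 (cont_integrand hA C _) ht fun σ hσ =>
        hsm _ _ (Real.cosh_pos _).le (hAc _ _ (ih σ hσ.1))
  refine hsm _ _ (Real.cosh_pos _).le ?_
  have hl := (pic_contracting hA hC hb f).tendsto_iterate_fixedPoint 0
  exact hcl.mem_of_tendsto
    (((continuous_eval_const t).tendsto _).comp hl)
    (Eventually.of_forall fun n => hit n t ht)

end

end Pool.Agent.MP_bbd370_an
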