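import Pool.Agent.MP_bbd370_an.Model

set_option autoImplicit false

open Set MeasureTheory Filter Topology
open scoped ENNReal NNReal

namespace Pool.Agent.MP_bbd370_an

variable (c : ℝ≥0)

lemma isClosed_cone : IsClosed {f : X1 | IsNonneg massMeasure f} := by
  refine isClosed_of_closure_subset fun f hf => ?_
  obtain ⟨u, hu, hl⟩ := mem_closure_iff_seq_limit.mp hf
  obtain ⟨ns, -, h⟩ := (tendstoInMeasure_of_tendsto_Lp hl).exists_seq_tendsto_ae
  have hcl : IsClosed {w : ℂ | 0 ≤ w.re ∧ w.im = 0} :=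
    (isClosed_le continuous_const Complex.continuous_re).inter
      (isClosed_eq Complex.continuous_im continuous_const)
  have hall : ∀ᵐ x ∂massMeasure, ∀ n, 0 ≤ (u n x).re ∧ (u n x).im = 0 := ae_all_iff.mpr hu
  filter_upwards [h, hall] with x h1 h2
  exact hcl.mem_of_tendsto h1 (Eventually.of_forall fun n => h2 _)

lemma smul_cone (r : ℝ) (f : X1) (hr : 0 ≤ r) (hf : IsNonneg massMeasure f) : IsNonneg massMeasure (r • f) := by
  filter_upwards [hf, Lp.coeFn_smul r f] with x h1 h2
  rw [h2, Pi.smul_apply, Complex.smul_re, Complex.smul_im, h1.2, smul_zero]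
  exact ⟨mul_nonneg hr h1.1, rfl⟩

lemma convex_cone : Convex ℝ {f : X1 | IsNonneg massMeasure f} := by
  intro f hf g hg a b ha hb _
  filter_upwards [smul_cone a f ha hf, smul_cone b g hb hg, Lp.coeFn_add (a • f) (b • g)]
    with x h1 h2 h3
  rw [h3, Pi.add_apply, Complex.add_re, Complex.add_im, h1.2, h2.2, add_zero]
  exact ⟨add_nonneg h1.1 h2.1, rfl⟩

lemma Sg_cone (t : ℝ) (f : X1) (hf : IsNonneg massMeasure f) : IsNonneg massMeasure (Sg c t f) := by
  rw [IsNonneg, ae_mass_iff c] at hf ⊢
  filter_upwards [Sg_ae c t f, ae_sub hf t] with z h1 h2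
  have e1 := congrArg Complex.re h1
  have e2 := congrArg Complex.im h1
  simp only [Complex.smul_re, Complex.smul_im, smul_eq_mul, h2.2, mul_zero] at e1 e2
  have hd := den_pos c z
  refine ⟨?_, (mul_eq_zero.mp e2).resolve_left hd.ne'⟩
  have := mul_nonneg (den_pos c (z - t)).le h2.1
  rw [← e1] at this
  exact nonneg_of_mul_nonneg_right this hd

lemma psi_cone : IsNonneg massMeasure (psi c) := by
  filter_upwards [psi_ae c] with x hx
  rw [hx]
  exact ⟨by simpa using phi_nonneg c x, by simp⟩

lemma fr_nonneg (x : ℝ) : 0 ≤ fr c x := mul_nonneg c.2 (ramp_nonneg _)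

lemma ell_cone (f : X1) (hf : IsNonneg massMeasure f) : ∃ r : ℝ, 0 ≤ r ∧ ell c f = r := by
  refine ⟨∫ x, fr c x * (f x).re ∂massMeasure, integral_nonneg_of_ae ?_, ?_⟩
  · filter_upwards [hf] with x hx
    exact mul_nonneg (fr_nonneg c x) hx.1
  · rw [ell_eq_mass, ← integral_complex_ofReal]
    refine integral_congr_ae ?_
    filter_upwards [hf] with x hx
    apply Complex.ext <;> simp [hx.2]

/-- the fragmentation kernel -/
noncomputable def kern (x y : ℝ) : ℝ := if 1 ≤ y then y * phi c x else 2 / y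

lemma kern_mass {y : ℝ} (hy : 0 < y) :
    ∫⁻ x in Ioo 0 y, ENNReal.ofReal (x * kern c x y) = ENNReal.ofReal y := by
  by_cases h : 1 ≤ y
  · simp only [kern, h, if_true]
    have h1 := lintegral_mass c (F := fun x => ENNReal.ofReal (phi c x))
      (measurable_phi c).ennreal_ofReal
    have h2 : ∀ z, ENNReal.ofReal (den c z) * ENNReal.ofReal (phi c (xz c z))
        = (Ioo (-1 : ℝ) 0).indicator 1 z := by
      intro z
      rw [← ENNReal.ofReal_mul (den_pos c z).le, phi, zx_xz, mul_inv_cancel_left₀ (den_pos c z).ne',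
        bump]
      by_cases hz : z ∈ Ioo (-1 : ℝ) 0 <;> simp [hz]
    simp only [h2] at h1
    rw [lintegral_indicator_one measurableSet_Ioo, massMeasure,
      lintegral_withDensity_eq_lintegral_mul _ ENNReal.measurable_ofReal
        (measurable_phi c).ennreal_ofReal] at h1
    have h3 : ∫⁻ x in Ioo 0 y, ENNReal.ofReal (x * (y * phi c x)) = ∫⁻ x in Ioi 0,
        ENNReal.ofReal y * (ENNReal.ofReal x * ENNReal.ofReal (phi c x)) := by
      rw [← lintegral_indicator measurableSet_Ioo, ← lintegral_indicator measurableSet_Ioi]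
      congr 1
      ext x
      by_cases h0 : 0 < x
      · by_cases hxy : x < y
        · rw [indicator_of_mem (show x ∈ Ioo 0 y from ⟨h0, hxy⟩),
            indicator_of_mem (show x ∈ Ioi 0 from h0), ← ENNReal.ofReal_mul h0.le,
            ← ENNReal.ofReal_mul hy.le, mul_left_comm]
        · rw [indicator_of_notMem (fun hh => hxy hh.2), indicator_of_mem (show x ∈ Ioi 0 from h0),
            phi_of_one_le c (h.trans (not_lt.mp hxy))]
          simp
      · rw [indicator_of_notMem (fun hh => h0 hh.1),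
          indicator_of_notMem (show x ∉ Ioi 0 from h0)]
    rw [h3, lintegral_const_mul' _ _ ENNReal.ofReal_ne_top]
    have h4 : ∫⁻ x in Ioi 0, ENNReal.ofReal x * ENNReal.ofReal (phi c x) = 1 := by
      refine Eq.trans ?_ (h1.trans (by simp))
      rfl
    rw [h4, mul_one]
  · simp only [kern, h, if_false]
    have hi : IntegrableOn (fun x => x * (2 / y)) (Ioo 0 y) :=
      (Continuous.integrableOn_Icc (by fun_prop)).mono_set Ioo_subset_Icc_self
    rw [← ofReal_integral_eq_lintegral_ofReal hi (ae_restrict_of_forall_mem measurableSet_Ioo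
      fun x hx => mul_nonneg hx.1.le (by positivity)), ← integral_Ioc_eq_integral_Ioo,
      ← intervalIntegral.integral_of_le hy.le, intervalIntegral.integral_mul_const, integral_id]
    congr 1
    field_simp
    ring

lemma isData : IsData (gr c) (fr c) (kern c) where
  r_pos _ hx := gr_pos c hx
  r_loc := (continuousOn_inv_gr c).locallyIntegrableOn measurableSet_Ioi
  r_zero := lintegral_inv_gr_top c measurableSet_Ioo Ioo_subset_Ioi_self (by
    rw [← intervalIntegrable_iff_integrableOn_Ioo_of_le zero_le_one, intervalIntegrable_inv_iff]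
    simp)
  r_top := lintegral_inv_gr_top c measurableSet_Ioi (Ioi_subset_Ioi zero_le_one)
    not_integrableOn_Ioi_inv
  a_meas := measurable_const.mul (continuous_ramp.measurable.comp (measurable_zx c))
  a_nonneg x _ := fr_nonneg c x
  b_meas := Measurable.ite (measurableSet_le measurable_const measurable_snd)
    (measurable_snd.mul ((measurable_phi c).comp measurable_fst))
    (measurable_const.div measurable_snd)
  b_nonneg x y hx hxy := by
    have := hx.trans hxy
    unfold kern
    split_ifs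
    · exact mul_nonneg this.le (phi_nonneg c x)
    · positivity
  b_mass _ hy := (kern_mass c hy).le

/-- the transport semigroup -/
noncomputable def Ug (t : ℝ) : X1 →L[ℂ] X1 := (Real.exp t : ℂ) • Sg c t

lemma Ug_apply (t : ℝ) (f : X1) : Ug c t f = Real.exp t • Sg c t f := by
  rw [← smul_one_smul ℂ (Real.exp t) (Sg c t f)]; simp [Ug]

lemma isTransport : IsTransport massMeasure (gr c) (fr c) (fun t f => Ug c t f) := by
  refine ⟨fun y t => xz c (zx c y - t), fun y t hy ht => ⟨⟨xz_pos c _, ?_⟩, ?_⟩, fun t _ f => ?_⟩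
  · conv_rhs => rw [← xz_zx c hy]
    exact (xz_strictMono c).monotone (by linarith)
  · rw [integral_inv_gr c (xz_pos c _) hy, zx_xz]; ring
  · beta_reduce
    rw [Ug_apply, EventuallyEq, ae_mass_iff c]
    filter_upwards [Sg_ae c t f, (ae_mass_iff c _).mp (Lp.coeFn_smul (Real.exp t) (Sg c t f))]
      with z h1 h2
    have hd : HasDerivAt (fun y => xz c (zx c y - t))
        (xz c (zx c (xz c z) - t) * spd c (zx c (xz c z) - t) * (1 / gr c (xz c z))) (xz c z) :=
      (hasDerivAt_xz c _).comp (xz c z) ((hasDerivAt_zx c (xz_pos c z)).sub_const t)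
    rw [h2, hd.deriv, integral_fr_gr c (xz_pos c _) (xz_pos c _), gr]
    simp only [zx_xz]
    have e : Real.exp (-(Real.log (xz c z) - z - (Real.log (xz c (z - t)) - (z - t))))
        = Real.exp t * xz c (z - t) / xz c z := by
      rw [eq_div_iff (xz_pos c z).ne']
      conv_lhs => rw [← Real.exp_log (xz_pos c z), Real.log_exp, ← Real.exp_add]
      conv_rhs => rw [← Real.exp_log (xz_pos c (z - t)), ← Real.exp_add]
      congr 1; ring
    rw [e, Pi.smul_apply]
    have p1 : (xz c z : ℂ) ≠ 0 := by exact_mod_cast (xz_pos c z).ne'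
    have p2 : (spd c z : ℂ) ≠ 0 := by exact_mod_cast (spd_pos c z).ne'
    simp only [den, Complex.real_smul] at h1 ⊢
    push_cast at h1 ⊢
    field_simp
    linear_combination h1

lemma isC0_Ug : IsC0Semigroup (Ug c) where
  zero := by ext1 f; rw [Ug_apply, (isGrp_Sg c).zero]; simp
  add s t _ _ := by
    ext1 f
    rw [mul_apply_eq_comp, Ug_apply, Ug_apply, Ug_apply, ContinuousLinearMap.map_smul_of_tower,
      (isGrp_Sg c).add, smul_smul, Real.exp_add]
  cont f := by
    simp only [Ug_apply]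
    exact (Real.continuous_exp.smul ((isGrp_Sg c).cont f)).continuousOn

lemma frag_ae (f : X1) : ∀ᵐ x ∂massMeasure, (ell c f • psi c : X1) x
    = ∫ y in Ioi x, (fr c y : ℂ) * (kern c x y : ℂ) * f y := by
  have hpos : ∀ᵐ x ∂massMeasure, 0 < x :=
    (ae_mass_iff c _).mpr (Eventually.of_forall (xz_pos c))
  filter_upwards [hpos, psi_ae c, Lp.coeFn_smul (ell c f) (psi c)] with x hx h1 h2
  have hfr : ∀ y, 0 < y → y < 1 → fr c y = 0 := fun y h0 h => by
    rw [fr, ramp_of_nonpos (zx_nonpos c h0 h.le), mul_zero]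
  rw [h2, Pi.smul_apply, h1, smul_eq_mul, ell_eq, ← integral_mul_const,
    ← integral_indicator measurableSet_Ioi, ← integral_indicator measurableSet_Ioi]
  congr 1
  ext y
  by_cases hxy : x < y
  · rw [indicator_of_mem (show y ∈ Ioi x from hxy),
      indicator_of_mem (show y ∈ Ioi 0 from hx.trans hxy), kern]
    split_ifs with h
    · push_cast; ring
    · rw [hfr y (hx.trans hxy) (not_le.mp h)]; simp
  · rw [indicator_of_notMem (show y ∉ Ioi x from hxy)]
    by_cases h0 : 0 < y
    · rw [indicator_of_mem (show y ∈ Ioi 0 from h0)]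
      by_cases h : 1 ≤ y
      · rw [phi_of_one_le c (h.trans (not_lt.mp hxy))]; simp
      · rw [hfr y h0 (not_le.mp h)]; simp
    · rw [indicator_of_notMem (show y ∉ Ioi 0 from h0)]

theorem main : ∃ (r a : ℝ → ℝ) (b : ℝ → ℝ → ℝ) (U V : ℝ → X1 →L[ℂ] X1),
    IsData r a b ∧ ContinuousOn r (Ioi 0) ∧ ContinuousOn a (Ioi 0) ∧ (∃ C, ∀ x, 0 < x → a x ≤ C) ∧
    (∀ y, 0 < y → ∫⁻ x in Ioo 0 y, ENNReal.ofReal (x * b x y) = ENNReal.ofReal y) ∧
    IsTransport massMeasure r a (fun t f => U t f) ∧ IsC0Semigroup U ∧ IsC0Semigroup V ∧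
    (∀ t, 0 ≤ t → ∀ f, IsNonneg massMeasure f → IsNonneg massMeasure (V t f)) ∧
    (∀ f g, GenGraph V f g ↔ ∃ h, GenGraph U f h ∧
      g =ᵐ[massMeasure] fun x => h x + ∫ y in Ioi x, (a y : ℂ) * (b x y : ℂ) * f y) ∧
    HasSpectralGap V := by
  let c : ℝ≥0 := ⟨lap⁻¹, (inv_pos.mpr lap_pos).le⟩
  have h1 : ell c (∫ s in Ioi 0, Real.exp (-s) • Sg c s (psi c)) = 1 := by
    rw [ell_resolvent]
    have : ((c : ℝ) : ℂ) * lap = ((lap⁻¹ * lap : ℝ) : ℂ) := (Complex.ofReal_mul _ _).symm
    rw [inv_mul_cancel₀ lap_pos.ne'] at this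
    exact this
  obtain ⟨V, v0, vadd, vc, vpos, vd, vk, e, he, hev⟩ := perturb (isGrp_Sg c) (ell c) (psi c) h1
    convex_cone isClosed_cone smul_cone (Sg_cone c) (psi_cone c) (ell_cone c)
  refine ⟨gr c, fr c, kern c, Ug c, V, isData c, continuousOn_gr c, continuousOn_fr c,
    ⟨c, fun x _ => mul_le_of_le_one_right c.2 (ramp_le_one _)⟩, fun y hy => kern_mass c hy,
    isTransport c, isC0_Ug c, ⟨v0, fun s t _ _ => vadd s t, fun f => (vc f).continuousOn⟩,
    vpos, fun f g => ?_, 1, 2, one_lt_two, fun t ht => ?_, fun ω M h => ?_⟩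
  · have hd : HasDerivWithinAt (fun t => V t f - Ug c t f) (ell c f • psi c) (Ici 0) 0 := by
      simp only [Ug_apply]
      exact (vd f).hasDerivWithinAt
    constructor
    · intro hg
      refine ⟨g - ell c f • psi c, ?_, ?_⟩
      · have := HasDerivWithinAt.sub hg hd
        exact this.congr (fun t _ => by simp) (by simp)
      · filter_upwards [frag_ae c f, Lp.coeFn_sub g (ell c f • psi c)] with x h2 h3
        rw [h3, Pi.sub_apply, h2, sub_add_cancel]
    · rintro ⟨h, hh, hg⟩
      have e2 : g = h + ell c f • psi c := by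
        apply Lp.ext
        filter_upwards [frag_ae c f, Lp.coeFn_add h (ell c f • psi c), hg] with x h2 h3 h4
        rw [h3, Pi.add_apply, h2, h4]
      have := HasDerivWithinAt.add hh hd
      rw [e2]
      exact this.congr (fun t _ => by simp) (by simp)
  · refine iSup₂_le fun z hz => ?_
    have h2 := mem_iInter₂.mp hz (-(V t - Ug c t)) (vk t ht).neg
    have e2 : V t + -(V t - Ug c t) = Ug c t := by abel
    rw [e2] at h2
    have : Nontrivial X1 := ⟨⟨e, 0, he⟩⟩
    have h3 : ‖Ug c t‖ ≤ Real.exp (1 * t) := by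
      refine ContinuousLinearMap.opNorm_le_bound _ (Real.exp_pos _).le fun f => ?_
      rw [Ug_apply, norm_smul, Real.norm_of_nonneg (Real.exp_pos _).le, one_mul]
      exact mul_le_mul_of_nonneg_left ((isGrp_Sg c).bound t f) (Real.exp_pos _).le
    rw [← ofReal_norm]
    exact ENNReal.ofReal_le_ofReal ((spectrum.norm_le_norm_of_mem h2).trans h3)
  · by_contra hcon
    have hω : 0 < 2 - ω := by linarith [not_le.mp hcon]
    have hb : ∀ t, 0 ≤ t → Real.exp ((2 - ω) * t) ≤ M := by
      intro t ht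
      have h2 := (V t).le_opNorm e
      rw [hev, norm_smul, Real.norm_of_nonneg (Real.exp_pos _).le] at h2
      have h3 := (le_of_mul_le_mul_right h2 (norm_pos_iff.mpr he)).trans (h t ht)
      rwa [sub_mul, Real.exp_sub, div_le_iff₀ (Real.exp_pos _)]
    have h4 := hb (|M| / (2 - ω)) (by positivity)
    rw [mul_div_cancel₀ _ hω.ne'] at h4
    have := Real.add_one_le_exp |M|
    linarith [le_abs_self M]

end Pool.Agent.MP_bbd370_an
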