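import Pool.Agent.MP_bbd370_an.Linear

set_option autoImplicit false
set_option linter.unusedSectionVars false

open Set MeasureTheory Filter Topology

namespace Pool.Agent.MP_bbd370_an

variable {E : Type} [NormedAddCommGroup E] [NormedSpace ℝ E] [NormedSpace ℂ E]
  [IsScalarTower ℝ ℂ E] [CompleteSpace E]

/-- a strongly continuous group of contractions -/
structure IsGrp (S : ℝ → E →L[ℂ] E) : Prop where
  zero : ∀ f, S 0 f = f
  add : ∀ s t f, S (s + t) f = S s (S t f)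
  cont : ∀ f, Continuous fun t => S t f
  bound : ∀ t f, ‖S t f‖ ≤ ‖f‖

lemma IsGrp.joint {S : ℝ → E →L[ℂ] E} (hS : IsGrp S) : Continuous fun q : ℝ × E => S q.1 q.2 := by
  refine continuous_prod_of_continuous_lipschitzWith' _ 1 (fun t => ?_) hS.cont
  refine LipschitzWith.of_dist_le_mul fun x y => ?_
  rw [dist_eq_norm, dist_eq_norm, ← map_sub]
  simpa only [NNReal.coe_one, one_mul] using hS.bound t (x - y)

lemma IsGrp.comp {S : ℝ → E →L[ℂ] E} (hS : IsGrp S) {X : Type} [TopologicalSpace X] {a : X → ℝ}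
    {u : X → E} (ha : Continuous a) (hu : Continuous u) : Continuous fun x => S (a x) (u x) :=
  hS.joint.comp (f := fun x => (a x, u x)) (ha.prodMk hu)

/-- the interaction picture vector field -/
noncomputable def field (S : ℝ → E →L[ℂ] E) (l : E →L[ℂ] ℂ) (ψ : E) (t : ℝ) : E →L[ℂ] E :=
  (l.comp (S t)).smulRight (S (-t) ψ)

lemma field_apply (S : ℝ → E →L[ℂ] E) (l : E →L[ℂ] ℂ) (ψ : E) (t : ℝ) (x : E) :
    field S l ψ t x = l (S t x) • S (-t) ψ := rfl

section
variable {S : ℝ → E →L[ℂ] E} (hS : IsGrp S) (l : E →L[ℂ] ℂ) (ψ : E)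
include hS

lemma field_cont : Continuous fun q : ℝ × E => field S l ψ q.1 q.2 :=
  (l.continuous.comp hS.joint).smul (hS.comp continuous_fst.neg continuous_const)

omit hS in
lemma const_pos : 0 < ‖l‖ * ‖ψ‖ + 1 := by positivity

lemma field_bound (t : ℝ) (x : E) : ‖field S l ψ t x‖ ≤ (‖l‖ * ‖ψ‖ + 1) * ‖x‖ := by
  rw [field_apply, norm_smul]
  have h1 := l.le_opNorm (S t x)
  have h2 := hS.bound t x
  have h3 := hS.bound (-t) ψ
  have h4 : ‖l (S t x)‖ ≤ ‖l‖ * ‖x‖ := h1.trans (mul_le_mul_of_nonneg_left h2 (norm_nonneg _))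
  calc _ ≤ ‖l‖ * ‖x‖ * ‖ψ‖ := mul_le_mul h4 h3 (norm_nonneg _) (by positivity)
    _ ≤ _ := by nlinarith [norm_nonneg x]

/-- interaction picture propagator -/
noncomputable def inter (t : ℝ) : E →L[ℂ] E :=
  prop (field_cont hS l ψ) (const_pos l ψ) (field_bound hS l ψ) t

lemma inter_zero (f : E) : inter hS l ψ 0 f = f := sol_zero _ _ _ f

lemma inter_deriv (f : E) (t : ℝ) : HasDerivAt (fun t => inter hS l ψ t f)
    (l (S t (inter hS l ψ t f)) • S (-t) ψ) t := hasDerivAt_sol _ _ _ f t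

lemma inter_unique {f : E} {y : ℝ → E} (hy : ∀ t, HasDerivAt y (l (S t (y t)) • S (-t) ψ) t)
    (h0 : y 0 = f) (t : ℝ) : inter hS l ψ t f = y t :=
  (congrFun (sol_unique _ _ _ hy h0) t).symm

lemma inter_cont (f : E) : Continuous fun t => inter hS l ψ t f := continuous_sol _ _ _ f

lemma inter_add (s t : ℝ) (f : E) :
    inter hS l ψ t (S s (inter hS l ψ s f)) = S s (inter hS l ψ (t + s) f) := by
  refine inter_unique hS l ψ (y := fun t => S s (inter hS l ψ (t + s) f)) (fun t => ?_) (by simp) t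
  have h1 := (inter_deriv hS l ψ f (t + s)).comp_add_const t s
  have h2 := ((S s).restrictScalars ℝ).hasFDerivAt.comp_hasDerivAt t h1
  refine HasDerivAt.congr_deriv (f := fun t => S s (inter hS l ψ (t + s) f)) h2 ?_
  have e : s + -(t + s) = -t := by ring
  simp only [ContinuousLinearMap.coe_restrictScalars', map_smul, ← hS.add, e]

lemma inter_compact {t : ℝ} (ht : 0 < t) : 
    IsCompactOperator (inter hS l ψ t - 1 : E →L[ℂ] E) := by
  set R := ‖l‖ * (2 * Real.cosh (2 * (‖l‖ * ‖ψ‖ + 1) * t)) with hR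
  let K : Set E := (fun q : ℂ × ℝ => q.1 • S (-q.2) ψ) '' (Metric.closedBall 0 R ×ˢ Icc 0 t)
  have hK : IsCompact K := ((isCompact_closedBall _ _).prod isCompact_Icc).image
    (continuous_fst.smul (hS.comp continuous_snd.neg continuous_const))
  have hK2 : IsCompact (closure (convexHull ℝ K)) :=
    hK.totallyBounded.convexHull.closure.isCompact_of_isClosed isClosed_closure
  refine (isCompactOperator_iff_image_ball_subset_compact
    (inter hS l ψ t - 1 : E →L[ℂ] E).toLinearMap one_pos).mpr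
    ⟨_, hK2.image (continuous_const_smul t), ?_⟩
  rintro _ ⟨f, hf, rfl⟩
  have e : (inter hS l ψ t - 1 : E →L[ℂ] E).toLinearMap f
      = ∫ σ in (0 : ℝ)..t, field S l ψ σ (inter hS l ψ σ f) := by
    show inter hS l ψ t f - f = _
    rw [sub_eq_iff_eq_add']
    exact sol_eq _ _ _ f t
  rw [e]
  refine integral_mem_hull (cont_A_sol _ _ _ f) ht fun σ hσ =>
    ⟨(l (S σ (inter hS l ψ σ f)), σ), ⟨?_, hσ⟩, rfl⟩
  have hf' : ‖f‖ ≤ 1 := (mem_ball_zero_iff.mp hf).le
  rw [mem_closedBall_zero_iff, hR]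
  refine (l.le_opNorm _).trans (mul_le_mul_of_nonneg_left ((hS.bound _ _).trans ?_) (norm_nonneg _))
  refine (norm_sol_le _ _ _ f σ).trans ?_
  have h1 : Real.cosh (2 * (‖l‖ * ‖ψ‖ + 1) * σ) ≤ Real.cosh (2 * (‖l‖ * ‖ψ‖ + 1) * t) := by
    have := const_pos l ψ
    rw [Real.cosh_le_cosh, abs_of_nonneg (by nlinarith [hσ.1]), abs_of_nonneg (by nlinarith)]
    nlinarith [hσ.2]
  have h2 := Real.cosh_pos (2 * (‖l‖ * ‖ψ‖ + 1) * σ)
  nlinarith

lemma resolvent_integrable (c : ℝ) : IntegrableOn (fun s => Real.exp (-s) • S s ψ) (Ioi c) := by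
  refine Integrable.mono' ((integrableOn_exp_neg_Ioi c).mul_const ‖ψ‖)
    (Continuous.aestronglyMeasurable (Continuous.smul (f := fun s => Real.exp (-s)) (by fun_prop)
      (hS.cont ψ))) (Eventually.of_forall fun s => ?_)
  rw [norm_smul, Real.norm_of_nonneg (Real.exp_pos _).le]
  exact mul_le_mul_of_nonneg_left (hS.bound _ _) (Real.exp_pos _).le

lemma shift_resolvent (t : ℝ) : S t (∫ s in Ioi (-t), Real.exp (-s) • S s ψ)
    = Real.exp t • ∫ s in Ioi 0, Real.exp (-s) • S s ψ := by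
  have h1 := ((S t).restrictScalars ℝ).integral_comp_comm (resolvent_integrable hS ψ (-t))
  simp only [ContinuousLinearMap.coe_restrictScalars'] at h1
  rw [← h1, ← integral_smul]
  have h2 := (measurePreserving_add_right (volume : Measure ℝ) t).setIntegral_preimage_emb
    (measurableEmbedding_addRight t) (fun s => Real.exp t • Real.exp (-s) • S s ψ) (Ioi 0)
  rw [← h2, preimage_add_const_Ioi, zero_sub]
  congr 1
  ext s
  rw [ContinuousLinearMap.map_smul_of_tower, ← hS.add, smul_smul, ← Real.exp_add, add_comm t s]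
  congr 2
  ring

lemma inter_eigen (h1 : l (∫ s in Ioi 0, Real.exp (-s) • S s ψ) = 1) (t : ℝ) :
    S t (inter hS l ψ t (∫ s in Ioi 0, Real.exp (-s) • S s ψ))
      = Real.exp t • ∫ s in Ioi 0, Real.exp (-s) • S s ψ := by
  rw [← shift_resolvent hS ψ t]
  congr 1
  refine inter_unique hS l ψ (y := fun t => ∫ s in Ioi (-t), Real.exp (-s) • S s ψ)
    (fun t => ?_) (by simp) t
  have hc : Continuous fun s => Real.exp (-s) • S s ψ :=
    Continuous.smul (f := fun s => Real.exp (-s)) (by fun_prop) (hS.cont ψ)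
  have h2 := ((hc.integral_hasStrictDerivAt 0 (-t)).hasDerivAt.scomp t
    (hasDerivAt_neg t)).const_sub (∫ s in Ioi 0, Real.exp (-s) • S s ψ)
  have h3 : (fun t => ∫ s in Ioi (-t), Real.exp (-s) • S s ψ) = fun t =>
      (∫ s in Ioi 0, Real.exp (-s) • S s ψ) - ∫ s in (0 : ℝ)..(-t), Real.exp (-s) • S s ψ := by
    ext t
    rw [← intervalIntegral.integral_Ioi_sub_Ioi' (resolvent_integrable hS ψ 0)
      (resolvent_integrable hS ψ (-t))]
    abel
  rw [shift_resolvent hS ψ t, ContinuousLinearMap.map_smul_of_tower, h1, h3]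
  refine HasDerivAt.congr_deriv h2 ?_
  rw [smul_assoc, one_smul, neg_smul, one_smul, neg_neg, neg_neg]

end

theorem perturb {S : ℝ → E →L[ℂ] E} (hS : IsGrp S) (l : E →L[ℂ] ℂ) (ψ : E)
    (h1 : l (∫ s in Ioi 0, Real.exp (-s) • S s ψ) = 1)
    {𝒞 : Set E} (hc : Convex ℝ 𝒞) (hcl : IsClosed 𝒞)
    (hsm : ∀ (r : ℝ) x, 0 ≤ r → x ∈ 𝒞 → r • x ∈ 𝒞) (hSc : ∀ t x, x ∈ 𝒞 → S t x ∈ 𝒞)
    (hψ : ψ ∈ 𝒞) (hl : ∀ x ∈ 𝒞, ∃ r : ℝ, 0 ≤ r ∧ l x = r) :
    ∃ V : ℝ → E →L[ℂ] E, V 0 = 1 ∧ (∀ s t, V (s + t) = V s * V t) ∧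
      (∀ f, Continuous fun t => V t f) ∧ (∀ t, 0 ≤ t → ∀ f ∈ 𝒞, V t f ∈ 𝒞) ∧
      (∀ f, HasDerivAt (fun t => V t f - Real.exp t • S t f) (l f • ψ) 0) ∧
      (∀ t, 0 < t → IsCompactOperator (V t - (Real.exp t : ℂ) • S t : E →L[ℂ] E)) ∧
      ∃ e : E, e ≠ 0 ∧ ∀ t, V t e = Real.exp (2 * t) • e := by
  have hsmul : ∀ (r : ℝ) (x : E), (r : ℂ) • x = r • x := fun r x => by
    rw [← smul_one_smul ℂ r x]; simp
  have happ : ∀ t f, ((Real.exp t : ℂ) • (S t).comp (inter hS l ψ t)) f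
      = Real.exp t • S t (inter hS l ψ t f) := fun t f => hsmul _ _
  refine ⟨fun t => (Real.exp t : ℂ) • (S t).comp (inter hS l ψ t), ?_, ?_, ?_, ?_, ?_, ?_, ?_⟩
  · ext f
    rw [happ, inter_zero, hS.zero]; simp
  · intro s t
    ext f
    rw [mul_apply_eq_comp, happ, happ, happ, ContinuousLinearMap.map_smul_of_tower,
      ContinuousLinearMap.map_smul_of_tower, inter_add, ← hS.add, smul_smul, Real.exp_add]
  · intro f
    simp only [happ]
    exact Real.continuous_exp.smul (hS.comp continuous_id (inter_cont hS l ψ f))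
  · intro t ht f hf
    rw [happ]
    refine hsm _ _ (Real.exp_pos _).le (hSc _ _ (sol_mem _ _ _ hc hcl hsm (fun t x hx => ?_) hf ht))
    obtain ⟨r, hr, e⟩ := hl _ (hSc t x hx)
    rw [field_apply, e, hsmul]
    exact hsm _ _ hr (hSc _ _ hψ)
  · intro f
    simp only [happ]
    have h2 := inter_deriv hS l ψ f 0
    rw [inter_zero, neg_zero, hS.zero, hS.zero, hasDerivAt_iff_tendsto_slope_zero] at h2
    rw [hasDerivAt_iff_tendsto_slope_zero]
    have h3 : Continuous fun q : ℝ × E => Real.exp q.1 • S q.1 q.2 :=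
      (Real.continuous_exp.comp continuous_fst).smul hS.joint
    have h4 := (h3.tendsto (0, l f • ψ)).comp
      ((tendsto_id.mono_left (nhdsWithin_le_nhds (s := {0}ᶜ))).prodMk_nhds h2)
    simp only [Real.exp_zero, one_smul, hS.zero] at h4
    refine h4.congr fun t => ?_
    simp only [Function.comp_apply, id, zero_add, inter_zero, hS.zero, sub_self, sub_zero,
      ContinuousLinearMap.map_smul_of_tower, map_sub, smul_sub, Real.exp_zero]
    rw [smul_comm, smul_comm (Real.exp t)]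
  · intro t ht
    have h2 := ((inter_compact hS l ψ ht).clm_comp (S t)).smul (Real.exp t : ℂ)
    have e : (((Real.exp t : ℂ) • (S t).comp (inter hS l ψ t) - (Real.exp t : ℂ) • S t :
        E →L[ℂ] E) : E → E) = (Real.exp t : ℂ) • (S t ∘ (inter hS l ψ t - 1 : E →L[ℂ] E)) := by
      ext f
      simp [smul_sub]
    rw [e]
    exact h2
  · refine ⟨∫ s in Ioi 0, Real.exp (-s) • S s ψ, fun h => ?_, fun t => ?_⟩
    · rw [h, map_zero] at h1
      exact zero_ne_one h1
    · rw [happ, inter_eigen hS l ψ h1, smul_smul, ← Real.exp_add, two_mul]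

end Pool.Agent.MP_bbd370_an
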