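import Pool.Agent.MP_bbd370_an.Flow
import Pool.Agent.MP_bbd370_an.Perturb

set_option autoImplicit false

open Set MeasureTheory Filter Topology
open scoped ENNReal NNReal

namespace Pool.Agent.MP_bbd370_an

/-- integrable functions of the flow time -/
abbrev L1 : Type := Lp ℂ 1 (volume : Measure ℝ)

variable (c : ℝ≥0)

lemma integrable_pull (f : X1) : Integrable fun z => den c z • f (xz c z) :=
  (integrable_mass_iff c f).mp (L1.integrable_coeFn f)

/-- change of variables -/
noncomputable def pull (f : X1) : L1 := (integrable_pull c f).toL1 _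

lemma pull_ae (f : X1) : ∀ᵐ z, pull c f z = den c z • f (xz c z) :=
  Integrable.coeFn_toL1 (integrable_pull c f)

lemma norm_pull (f : X1) : ‖pull c f‖ = ‖f‖ := by
  rw [L1.norm_eq_integral_norm, L1.norm_eq_integral_norm]
  have h := integral_mass c fun x => (‖f x‖ : ℂ)
  simp only [Complex.real_smul, ← Complex.ofReal_mul, integral_complex_ofReal] at h
  rw [Complex.ofReal_injective h]
  refine integral_congr_ae ?_
  filter_upwards [pull_ae c f] with z hz
  rw [hz, norm_smul, Real.norm_of_nonneg (den_pos c z).le]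

/-- change of variables as a linear isometry -/
noncomputable def pullLI : X1 →ₗᵢ[ℂ] L1 where
  toFun := pull c
  map_add' f g := by
    apply Lp.ext
    filter_upwards [pull_ae c (f + g), pull_ae c f, pull_ae c g,
      Lp.coeFn_add (pull c f) (pull c g), (ae_mass_iff c _).mp (Lp.coeFn_add f g)]
      with z h1 h2 h3 h4 h5
    rw [h1, h4, Pi.add_apply, h2, h3, h5, Pi.add_apply, smul_add]
  map_smul' a f := by
    apply Lp.ext
    filter_upwards [pull_ae c (a • f), pull_ae c f,
      Lp.coeFn_smul a (pull c f), (ae_mass_iff c _).mp (Lp.coeFn_smul a f)]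
      with z h1 h2 h4 h5
    rw [h1, RingHom.id_apply, h4, Pi.smul_apply, h2, h5, Pi.smul_apply, smul_comm]
  norm_map' := norm_pull c

lemma pull_surjective : Function.Surjective (pullLI c) := by
  intro h
  have hi : Integrable (fun x => (den c (zx c x))⁻¹ • h (zx c x)) massMeasure := by
    rw [integrable_mass_iff c]
    simp only [zx_xz, smul_smul, mul_inv_cancel₀ (den_pos c _).ne', one_smul]
    exact L1.integrable_coeFn h
  refine ⟨hi.toL1 _, ?_⟩
  apply Lp.ext
  filter_upwards [pull_ae c (hi.toL1 _), (ae_mass_iff c _).mp (Integrable.coeFn_toL1 hi)]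
    with z h1 h2
  show pull c _ z = _
  rw [h1, h2, zx_xz, smul_smul, mul_inv_cancel₀ (den_pos c _).ne', one_smul]

/-- change of variables as an isometric isomorphism -/
noncomputable def J : X1 ≃ₗᵢ[ℂ] L1 := LinearIsometryEquiv.ofSurjective _ (pull_surjective c)

lemma J_ae (f : X1) : ∀ᵐ z, J c f z = den c z • f (xz c z) := pull_ae c f

lemma Jsymm_ae (h : L1) : ∀ᵐ z, den c z • (J c).symm h (xz c z) = h z := by
  have := J_ae c ((J c).symm h)
  rw [LinearIsometryEquiv.apply_symm_apply] at this
  exact this.mono fun z hz => hz.symm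

/-- translation -/
noncomputable def trl (t : ℝ) : L1 →ₗᵢ[ℂ] L1 :=
  Lp.compMeasurePreservingₗᵢ ℂ (fun z => z - t) (measurePreserving_sub_right volume t)

lemma trl_ae (t : ℝ) (h : L1) : ∀ᵐ z, trl t h z = h (z - t) :=
  Lp.coeFn_compMeasurePreserving h (measurePreserving_sub_right volume t)

lemma ae_sub {P : ℝ → Prop} (h : ∀ᵐ z, P z) (t : ℝ) : ∀ᵐ z, P (z - t) :=
  (measurePreserving_sub_right volume t).quasiMeasurePreserving.ae h

lemma trl_zero (h : L1) : trl 0 h = h := by
  apply Lp.ext
  filter_upwards [trl_ae 0 h] with z hz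
  rw [hz, sub_zero]

lemma trl_add (s t : ℝ) (h : L1) : trl (s + t) h = trl s (trl t h) := by
  apply Lp.ext
  filter_upwards [trl_ae (s + t) h, trl_ae s (trl t h), ae_sub (trl_ae t h) s] with z h1 h2 h3
  rw [h1, h2, h3, sub_sub]

lemma trl_cont (h : L1) : Continuous fun t => trl t h :=
  Continuous.compMeasurePreservingLp (f := fun _ : ℝ => h)
    (g := fun t => ContinuousMap.curry ⟨fun q : ℝ × ℝ => q.2 - q.1, by fun_prop⟩ t)
    continuous_const (ContinuousMap.continuous _)
    (fun t => measurePreserving_sub_right volume t) (by simp)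

/-- the isometric part of the transport group -/
noncomputable def Sg (t : ℝ) : X1 →L[ℂ] X1 :=
  (((J c).symm.toLinearIsometry.comp (trl t)).comp (J c).toLinearIsometry).toContinuousLinearMap

lemma Sg_apply (t : ℝ) (f : X1) : Sg c t f = (J c).symm (trl t (J c f)) := rfl

lemma isGrp_Sg : IsGrp (Sg c) where
  zero f := by rw [Sg_apply, trl_zero, LinearIsometryEquiv.symm_apply_apply]
  add s t f := by
    rw [Sg_apply, Sg_apply, Sg_apply, LinearIsometryEquiv.apply_symm_apply, trl_add]
  cont f := (J c).symm.continuous.comp (trl_cont _)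
  bound t f := by rw [Sg_apply, LinearIsometryEquiv.norm_map, LinearIsometry.norm_map,
    LinearIsometryEquiv.norm_map]

lemma Sg_ae (t : ℝ) (f : X1) :
    ∀ᵐ z, den c z • Sg c t f (xz c z) = den c (z - t) • f (xz c (z - t)) := by
  filter_upwards [Jsymm_ae c (trl t (J c f)), trl_ae t (J c f), ae_sub (J_ae c f) t]
    with z h1 h2 h3
  rw [Sg_apply, h1, h2, h3]

lemma integrable_ramp (h : L1) : Integrable fun z => ramp z • h z := by
  refine Integrable.mono' (L1.integrable_coeFn h).norm
    (continuous_ramp.aestronglyMeasurable.smul (Lp.aestronglyMeasurable h))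
    (Eventually.of_forall fun z => ?_)
  rw [norm_smul, Real.norm_of_nonneg (ramp_nonneg z)]
  exact mul_le_of_le_one_left (norm_nonneg _) (ramp_le_one z)

/-- integration against the ramp -/
noncomputable def rampL : L1 →L[ℂ] ℂ :=
  LinearMap.mkContinuous
    { toFun := fun h => ∫ z, ramp z • h z
      map_add' := fun f g => by
        rw [← integral_add (integrable_ramp f) (integrable_ramp g)]
        refine integral_congr_ae ?_
        filter_upwards [Lp.coeFn_add f g] with z hz
        rw [hz, Pi.add_apply, smul_add]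
      map_smul' := fun a f => by
        rw [RingHom.id_apply, ← integral_smul]
        refine integral_congr_ae ?_
        filter_upwards [Lp.coeFn_smul a f] with z hz
        rw [hz, Pi.smul_apply, smul_comm] }
    1 (fun h => by
      rw [one_mul, L1.norm_eq_integral_norm]
      refine norm_integral_le_of_norm_le (L1.integrable_coeFn h).norm
        (Eventually.of_forall fun z => ?_)
      rw [norm_smul, Real.norm_of_nonneg (ramp_nonneg z)]
      exact mul_le_of_le_one_left (norm_nonneg _) (ramp_le_one z))

lemma rampL_apply (h : L1) : rampL h = ∫ z, ramp z • h z := rfl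

/-- distribution of fragments in flow time -/
noncomputable def bump (z : ℝ) : ℝ := (Ioo (-1 : ℝ) 0).indicator 1 z

lemma bump_nonneg (z : ℝ) : 0 ≤ bump z := indicator_nonneg (fun _ _ => zero_le_one) z

lemma bump_of_nonneg {z : ℝ} (h : 0 ≤ z) : bump z = 0 :=
  indicator_of_notMem (fun hz => absurd hz.2 (not_lt.mpr h)) _

lemma measurable_bump : Measurable bump := measurable_one.indicator measurableSet_Ioo

/-- the bump as an integrable function -/
noncomputable def bumpL : L1 := indicatorConstLp 1 (measurableSet_Ioo (a := (-1 : ℝ)) (b := 0))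
  (by simp) (1 : ℂ)

lemma bumpL_ae : ∀ᵐ z, bumpL z = (bump z : ℂ) := by
  filter_upwards [indicatorConstLp_coeFn (p := 1) (μ := (volume : Measure ℝ))
    (hs := measurableSet_Ioo (a := (-1 : ℝ)) (b := 0)) (hμs := by simp) (c := (1 : ℂ))] with z hz
  rw [bumpL, hz, bump]
  by_cases h : z ∈ Ioo (-1 : ℝ) 0 <;> simp [h]

/-- renewal kernel -/
noncomputable def ker (s : ℝ) : ℝ := ∫ z, ramp z * bump (z - s)

lemma rampL_trl (s : ℝ) : rampL (trl s bumpL) = ker s := by
  rw [rampL_apply, ker, ← integral_complex_ofReal]
  refine integral_congr_ae ?_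
  filter_upwards [trl_ae s bumpL, ae_sub bumpL_ae s] with z h1 h2
  rw [h1, h2]; simp

lemma ker_nonneg (s : ℝ) : 0 ≤ ker s :=
  integral_nonneg fun z => mul_nonneg (ramp_nonneg z) (bump_nonneg _)

lemma ker_of_two_le {s : ℝ} (hs : 2 ≤ s) : ker s = 1 := by
  have : ∀ z, ramp z * bump (z - s) = bump (z - s) := by
    intro z
    by_cases h : z - s ∈ Ioo (-1 : ℝ) 0
    · rw [ramp_of_one_le (by linarith [h.1]), one_mul]
    · rw [bump, indicator_of_notMem h, mul_zero]
  simp only [ker, this]
  rw [integral_sub_right_eq_self bump s]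
  unfold bump
  rw [integral_indicator_one measurableSet_Ioo]
  simp

/-- Laplace transform of the renewal kernel -/
noncomputable def lap : ℝ := ∫ s in Ioi (0 : ℝ), Real.exp (-s) * ker s

lemma isGrp_trl : IsGrp fun t => (trl t).toContinuousLinearMap where
  zero := trl_zero
  add := trl_add
  cont := trl_cont
  bound t f := ((trl t).norm_map f).le

lemma lap_pos : 0 < lap := by
  have hi : IntegrableOn (fun s => Real.exp (-s) * ker s) (Ioi 0) := by
    have h := ((Complex.reCLM.comp (rampL.restrictScalars ℝ)).integrable_comp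
      (resolvent_integrable isGrp_trl bumpL 0))
    refine h.congr (Eventually.of_forall fun s => ?_)
    simp [rampL_trl]
  have h1 : ∫ s in Ioi (2 : ℝ), Real.exp (-s) * ker s ≤ lap :=
    setIntegral_mono_set hi (Eventually.of_forall fun s =>
      mul_nonneg (Real.exp_pos _).le (ker_nonneg s))
      (Eventually.of_forall (Ioi_subset_Ioi (by norm_num)))
  have h2 : ∫ s in Ioi (2 : ℝ), Real.exp (-s) * ker s = Real.exp (-2) := by
    rw [← integral_exp_neg_Ioi]
    refine setIntegral_congr_fun measurableSet_Ioi fun s hs => ?_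
    simp only [ker_of_two_le (le_of_lt hs), mul_one]
  exact (Real.exp_pos _).trans_le (h2 ▸ h1)

/-- the fragmentation functional -/
noncomputable def ell : X1 →L[ℂ] ℂ :=
  (c : ℂ) • rampL.comp (J c).toLinearIsometry.toContinuousLinearMap

lemma ell_apply (f : X1) : ell c f = c * rampL (J c f) := rfl

/-- the fragment distribution -/
noncomputable def psi : X1 := (J c).symm bumpL

/-- the fragment density -/
noncomputable def phi (x : ℝ) : ℝ := (den c (zx c x))⁻¹ * bump (zx c x)

lemma phi_nonneg (x : ℝ) : 0 ≤ phi c x := mul_nonneg (inv_pos.mpr (den_pos c _)).le (bump_nonneg _)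

lemma measurable_phi : Measurable (phi c) :=
  ((continuous_den c).measurable.inv.mul measurable_bump).comp (measurable_zx c)

lemma phi_of_one_le {x : ℝ} (h : 1 ≤ x) : phi c x = 0 := by
  rw [phi, bump_of_nonneg (zx_nonneg c h), mul_zero]

lemma psi_ae : ∀ᵐ x ∂massMeasure, psi c x = (phi c x : ℂ) := by
  rw [ae_mass_iff c]
  filter_upwards [Jsymm_ae c bumpL, bumpL_ae] with z h1 h2
  have hd : (den c z : ℂ) ≠ 0 := by exact_mod_cast (den_pos c z).ne'
  rw [phi, zx_xz, psi]
  push_cast
  rw [← h2, ← h1, Complex.real_smul, inv_mul_cancel_left₀ hd]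

lemma ell_resolvent : ell c (∫ s in Ioi 0, Real.exp (-s) • Sg c s (psi c)) = c * lap := by
  have h1 := ((ell c).restrictScalars ℝ).integral_comp_comm
    (resolvent_integrable (isGrp_Sg c) (psi c) 0)
  simp only [ContinuousLinearMap.coe_restrictScalars'] at h1
  rw [← h1, lap, ← integral_complex_ofReal, ← integral_const_mul]
  congr 1
  ext s
  rw [ContinuousLinearMap.map_smul_of_tower, ell_apply, Sg_apply, psi,
    LinearIsometryEquiv.apply_symm_apply, LinearIsometryEquiv.apply_symm_apply, rampL_trl,
    Complex.real_smul]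
  push_cast
  ring

lemma ell_eq_mass (f : X1) : ell c f = ∫ x, fr c x • f x ∂massMeasure := by
  rw [ell_apply, rampL_apply, integral_mass c, ← integral_const_mul]
  refine integral_congr_ae ?_
  filter_upwards [J_ae c f] with z hz
  rw [hz, fr, zx_xz]
  simp only [Complex.real_smul]
  push_cast
  ring

lemma ell_eq (f : X1) : ell c f = ∫ y in Ioi (0 : ℝ), (fr c y : ℂ) * y * f y := by
  rw [ell_eq_mass]
  have := integral_withDensity_eq_integral_smul (μ := volume.restrict (Ioi (0 : ℝ)))
    (f := fun x : ℝ => x.toNNReal) measurable_real_toNNReal (fun x => fr c x • f x)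
  refine this.trans (setIntegral_congr_fun measurableSet_Ioi fun y hy => ?_)
  simp only [NNReal.smul_def, Real.coe_toNNReal _ (le_of_lt hy), Complex.real_smul]
  ring

end Pool.Agent.MP_bbd370_an
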